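import Pool.Agent.Helper40.IZ.Stmts

/-! Row HMS (MP_7a8f48_an): an invariant measure of full support on a compact metric space. -/

open MeasureTheory Filter Topology TopologicalSpace
open scoped ENNReal

namespace Pool.Agent.Helper40.IZ

namespace H97

/-- the orbit map measure -/
theorem tsum_half : (∑' i : ℕ, (2⁻¹ : ℝ≥0∞) ^ (i + 1)) = 1 := by
  rw [ENNReal.tsum_geometric_add_one, ENNReal.one_sub_inv_two, inv_inv]
  exact ENNReal.inv_mul_cancel (by norm_num) (by norm_num)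

end H97

/-- HMS: an invariant measure on a compact metric space. -/
theorem st_HMS (hG : ST_HMG) : ST_HMS := by
  intro M _ _ _ _ _
  obtain ⟨t, tg, tc, t2, ev⟩ := hG M
  letI : TopologicalSpace (M ≃ᵢ M) := t
  haveI : IsTopologicalGroup (M ≃ᵢ M) := tg
  haveI : CompactSpace (M ≃ᵢ M) := tc
  haveI : T2Space (M ≃ᵢ M) := t2
  letI : MeasurableSpace (M ≃ᵢ M) := borel _
  haveI : BorelSpace (M ≃ᵢ M) := ⟨rfl⟩
  let K0 : PositiveCompacts (M ≃ᵢ M) := ⊤
  let H : Measure (M ≃ᵢ M) := Measure.haarMeasure K0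
  have hH1 : H Set.univ = 1 := by
    have := Measure.haarMeasure_self (K₀ := K0)
    simpa [H, K0] using this
  let D : ℕ → M := denseSeq M
  have hD : DenseRange D := denseRange_denseSeq M
  have hm : ∀ i, Measurable fun k : M ≃ᵢ M => k (D i) := fun i => (ev (D i)).measurable
  let μ : Measure M := Measure.sum fun i : ℕ =>
    ((2⁻¹ : ℝ≥0∞) ^ (i + 1)) • Measure.map (fun k : M ≃ᵢ M => k (D i)) H
  have hμ : ∀ A : Set M, MeasurableSet A →
      μ A = ∑' i : ℕ, (2⁻¹ : ℝ≥0∞) ^ (i + 1) * H {k | k (D i) ∈ A} := by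
    intro A hA
    simp only [μ]
    rw [Measure.sum_apply _ hA]
    congr 1
    funext i
    rw [Measure.smul_apply, smul_eq_mul, Measure.map_apply (hm i) hA]
    rfl
  refine ⟨μ, ⟨?_⟩, ?_, ?_⟩
  · rw [hμ _ MeasurableSet.univ]
    have : ∀ i : ℕ, (2⁻¹ : ℝ≥0∞) ^ (i + 1) * H {k | k (D i) ∈ (Set.univ : Set M)} =
        (2⁻¹ : ℝ≥0∞) ^ (i + 1) := by
      intro i
      have e : {k : M ≃ᵢ M | k (D i) ∈ (Set.univ : Set M)} = Set.univ := by
        ext k; simp
      rw [e, hH1, mul_one]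
    simp only [this]
    exact H97.tsum_half
  · intro U hU hne
    obtain ⟨i, hi⟩ := hD.exists_mem_open hU hne
    rw [hμ U hU.measurableSet]
    have hpos : 0 < H {k | k (D i) ∈ U} := by
      apply IsOpen.measure_pos
      · exact hU.preimage (ev (D i))
      · exact ⟨1, hi⟩
    have h2 : 0 < (2⁻¹ : ℝ≥0∞) ^ (i + 1) * H {k | k (D i) ∈ U} := by
      refine pos_iff_ne_zero.2 (mul_ne_zero ?_ hpos.ne')
      exact pow_ne_zero _ (by simp)
    exact h2.trans_le (ENNReal.le_tsum (f := fun i : ℕ =>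
      (2⁻¹ : ℝ≥0∞) ^ (i + 1) * H {k | k (D i) ∈ U}) i)
  · intro k
    refine ⟨k.continuous.measurable, ?_⟩
    ext A hA
    rw [Measure.map_apply k.continuous.measurable hA,
      hμ _ (k.continuous.measurable hA), hμ _ hA]
    congr 1
    funext i
    congr 1
    have e : {g : M ≃ᵢ M | g (D i) ∈ k ⁻¹' A} = (fun g => k * g) ⁻¹' {g | g (D i) ∈ A} := by
      ext g
      simp [IsometryEquiv.mul_apply]
    rw [e, measure_preimage_mul]

end Pool.Agent.Helper40.IZ
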